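import Mathlib

namespace Pool.Agent.Results.MP_3684f0_an.Exposed

open Filter Topology
open scoped InnerProductSpace

variable {H : Type*} [NormedAddCommGroup H] [InnerProductSpace ℝ H]

/-- `p` is a point of `C` nearest to `x`. -/
def IsProj (C : Set H) (x p : H) : Prop := p ∈ C ∧ ∀ y ∈ C, ‖x - p‖ ≤ ‖x - y‖

/-- `v` strongly exposes `p` in `C`. -/
def StronglyExposes (C : Set H) (v p : H) : Prop :=
  p ∈ C ∧ IsLUB ((fun y => ⟪v, y⟫_ℝ) '' C) ⟪v, p⟫_ℝ ∧ ∀ y : ℕ → H, (∀ k, y k ∈ C) →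
    Tendsto (fun k => ⟪v, y k⟫_ℝ) atTop (𝓝 ⟪v, p⟫_ℝ) → Tendsto y atTop (𝓝 p)

theorem result {ι : Type*} [Finite ι] (C : ι → Set H) (hne : ∀ i, (C i).Nonempty)
    (hc : ∀ i, IsCompact (C i)) :
    ∃ x : H, ∀ i, (∃! p, IsProj (C i) x p) ∧
      ∀ p, IsProj (C i) x p → StronglyExposes (C i) (x - p) p := by
  classical
  have := Fintype.ofFinite ι
  obtain ⟨q, hq, hmax⟩ := (isCompact_univ_pi hc).exists_isMaxOn (Set.univ_pi_nonempty_iff.mpr hne)
    (f := fun c : ι → H => 3 * ‖∑ i, c i‖ ^ 2 - ∑ i, ‖c i‖ ^ 2) (by fun_prop)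
  have hq' : ∀ i, q i ∈ C i := fun i => hq i trivial
  set s := ∑ i, q i with hs
  have key : ∀ i, ∀ y ∈ C i, ⟪(3 : ℝ) • s - q i, y - q i⟫_ℝ + ‖y - q i‖ ^ 2 ≤ 0 := by
    intro i y hy
    have h1 : Function.update q i y ∈ Set.univ.pi C := fun j _ => by
      by_cases h : j = i
      · subst h; simpa using hy
      · simpa [h] using hq' j
    have h2 : 3 * ‖∑ j, Function.update q i y j‖ ^ 2 - ∑ j, ‖Function.update q i y j‖ ^ 2 ≤
      3 * ‖s‖ ^ 2 - ∑ j, ‖q j‖ ^ 2 := hmax h1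
    have h3 : ∑ j, Function.update q i y j = s + (y - q i) := by
      rw [Finset.sum_update_of_mem (Finset.mem_univ i), hs,
        ← Finset.add_sum_erase _ q (Finset.mem_univ i), Finset.sdiff_singleton_eq_erase]
      abel
    have h4 : ∑ j, ‖Function.update q i y j‖ ^ 2 = ∑ j, ‖q j‖ ^ 2 + (‖y‖ ^ 2 - ‖q i‖ ^ 2) := by
      have : ∀ j, ‖Function.update q i y j‖ ^ 2 =
          Function.update (fun j => ‖q j‖ ^ 2) i (‖y‖ ^ 2) j := fun j =>
        Function.apply_update (fun _ z => ‖z‖ ^ 2) q i y j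
      simp only [this]
      rw [Finset.sum_update_of_mem (Finset.mem_univ i),
        ← Finset.add_sum_erase _ (fun j => ‖q j‖ ^ 2) (Finset.mem_univ i),
        Finset.sdiff_singleton_eq_erase]
      ring
    have h5 : ‖y‖ ^ 2 = ‖q i + (y - q i)‖ ^ 2 := by simp
    rw [h3, h4, h5, norm_add_sq_real, norm_add_sq_real] at h2
    rw [inner_sub_left, real_inner_smul_left]
    linarith
  have hd : ∀ i, ∀ y ∈ C i, ‖(3 : ℝ) • s - q i‖ ^ 2 + ‖y - q i‖ ^ 2 ≤ ‖(3 : ℝ) • s - y‖ ^ 2 := by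
    intro i y hy
    have : (3 : ℝ) • s - y = ((3 : ℝ) • s - q i) - (y - q i) := by abel
    rw [this, norm_sub_sq_real ((3 : ℝ) • s - q i)]
    nlinarith [key i y hy, sq_nonneg ‖y - q i‖]
  have hu : ∀ i p, IsProj (C i) ((3 : ℝ) • s) p → p = q i := by
    intro i p hp
    have h1 := hd i p hp.1
    have h2 : ‖(3 : ℝ) • s - p‖ ^ 2 ≤ ‖(3 : ℝ) • s - q i‖ ^ 2 := by gcongr; exact hp.2 _ (hq' i)
    have h3 : ‖p - q i‖ ^ 2 ≤ 0 := by linarith
    rwa [sq_nonpos_iff, norm_eq_zero, sub_eq_zero] at h3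
  refine ⟨(3 : ℝ) • s, fun i => ⟨⟨q i, ⟨hq' i, fun y hy => ?_⟩, hu i⟩, fun p hp => ?_⟩⟩
  · exact le_of_sq_le_sq (by linarith [hd i y hy, sq_nonneg ‖y - q i‖]) (norm_nonneg _)
  obtain rfl := hu i p hp
  refine ⟨hq' i, IsGreatest.isLUB ⟨⟨_, hq' i, rfl⟩, ?_⟩, fun y hy h => ?_⟩
  · rintro _ ⟨y, hy, rfl⟩
    have := key i y hy
    rw [inner_sub_right] at this
    linarith [sq_nonneg ‖y - q i‖]
  · rw [tendsto_iff_norm_sub_tendsto_zero]
    have h1 := ((h.const_sub ⟪(3 : ℝ) • s - q i, q i⟫_ℝ).sqrt)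
    rw [sub_self, Real.sqrt_zero] at h1
    refine squeeze_zero (fun _ => norm_nonneg _) (fun k => Real.le_sqrt_of_sq_le ?_) h1
    have := key i _ (hy k)
    rw [inner_sub_right] at this
    linarith

end Pool.Agent.Results.MP_3684f0_an.Exposed
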